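import Pool.Agent.Q98.SPN.Stm

/-!
# Project SPN (helper98), job NRM: the norm of the convolution operator
-/

set_option autoImplicit false

open scoped Matrix.Norms.L2Operator Matrix
open Finset

namespace Pool.Agent.Q121.SPN

open Pool.Agent.Q98.SPN Pool.Agent.H172R2.GS

theorem elt_coeff {G : Type} [Group G] [Fintype G] [DecidableEq G] (x : G → ℂ) (g : G) :
    (elt x).coeff g = x g := by
  unfold elt
  rw [MonoidAlgebra.coeff_sum, Finsupp.finsetSum_apply]
  simp [MonoidAlgebra.coeff_single, Finsupp.single_apply]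

theorem elt_surj {G : Type} [Group G] [Fintype G] [DecidableEq G] (y : MonoidAlgebra ℂ G) :
    elt (fun g => y.coeff g) = y := by
  apply MonoidAlgebra.ext
  ext g
  rw [elt_coeff]

theorem elt_mul_coeff {G : Type} [Group G] [Fintype G] [DecidableEq G] (x v : G → ℂ) (h : G) :
    (elt x * elt v).coeff h = (conv x *ᵥ v) h := by
  rw [MonoidAlgebra.coeff_mul_antidiag (elt x) (elt v) h
    (univ.image fun k : G => (h * k⁻¹, k))]
  · rw [Finset.sum_image]
    · simp only [elt_coeff, Matrix.mulVec, dotProduct, conv, Matrix.of_apply]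
    · intro a _ b _ hab
      exact (Prod.ext_iff.mp hab).2
  · intro p
    constructor
    · intro hp
      obtain ⟨k, -, rfl⟩ := Finset.mem_image.mp hp
      simp
    · intro hp
      refine Finset.mem_image.mpr ⟨p.2, mem_univ _, ?_⟩
      ext
      · simp [← hp]
      · rfl

/-- the operator norm bound from a bound of the sums of squares -/
theorem norm_conv_le {G : Type} [Group G] [Fintype G] [DecidableEq G] (x : G → ℂ) (c : ℝ)
    (hc : 0 ≤ c)
    (h : ∀ v : G → ℂ, ∑ g, ‖(conv x *ᵥ v) g‖ ^ 2 ≤ c ^ 2 * ∑ g, ‖v g‖ ^ 2) : ‖conv x‖ ≤ c := by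
  rw [Matrix.cstar_norm_def]
  refine ContinuousLinearMap.opNorm_le_bound _ hc fun w => ?_
  refine le_of_sq_le_sq ?_ (by positivity)
  rw [mul_pow, EuclideanSpace.norm_sq_eq, EuclideanSpace.norm_sq_eq]
  have := h w.ofLp
  simpa [Matrix.ofLp_toEuclideanCLM] using this

theorem conv_sq_le {G : Type} [Group G] [Fintype G] [DecidableEq G] (x v : G → ℂ) :
    ∑ g, ‖(conv x *ᵥ v) g‖ ^ 2 ≤ ‖conv x‖ ^ 2 * ∑ g, ‖v g‖ ^ 2 := by
  have h := Matrix.l2_opNorm_mulVec (conv x) (WithLp.toLp 2 v)
  have h2 := pow_le_pow_left₀ (norm_nonneg _) h 2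
  rw [mul_pow, EuclideanSpace.norm_sq_eq, EuclideanSpace.norm_sq_eq] at h2
  simpa using h2

open scoped ComplexOrder in
theorem tr_nonneg {d : ℕ} (Y : Matrix (Fin d) (Fin d) ℂ) : 0 ≤ (Matrix.trace (Yᴴ * Y)).re := by
  have := (Matrix.posSemidef_conjTranspose_mul_self Y).trace_nonneg
  exact (Complex.nonneg_iff.mp this).1

theorem NRM_ok (h1 : S_PLA) (h2 : S_HS) : S_NRM := by
  intro G _ _ _ k d Ψ hΨ x
  have hG : (0 : ℝ) < Fintype.card G := by
    exact_mod_cast Fintype.card_pos
  -- Plancherel for the product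
  have key : ∀ v : G → ℂ, (Fintype.card G : ℝ) * ∑ g, ‖(conv x *ᵥ v) g‖ ^ 2 =
      ∑ i, (d i : ℝ) * (Matrix.trace ((Ψ (elt x) i * Ψ (elt v) i)ᴴ *
        (Ψ (elt x) i * Ψ (elt v) i))).re := by
    intro v
    have e := h1 G k d Ψ hΨ (elt x * elt v)
    simp only [elt_mul_coeff, map_mul, Pi.mul_apply] at e
    exact e
  have key2 : ∀ v : G → ℂ, (Fintype.card G : ℝ) * ∑ g, ‖v g‖ ^ 2 =
      ∑ i, (d i : ℝ) * (Matrix.trace ((Ψ (elt v) i)ᴴ * Ψ (elt v) i)).re := by
    intro v
    have e := h1 G k d Ψ hΨ (elt v)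
    simp only [elt_coeff] at e
    exact e
  constructor
  · intro c hc hx
    refine norm_conv_le x c hc fun v => ?_
    refine le_of_mul_le_mul_left ?_ hG
    rw [key, mul_left_comm, key2, Finset.mul_sum]
    refine Finset.sum_le_sum fun i _ => ?_
    rw [mul_left_comm]
    refine mul_le_mul_of_nonneg_left ?_ (Nat.cast_nonneg _)
    refine (h2 (d i) (Ψ (elt x) i) (Ψ (elt v) i)).1.trans ?_
    exact mul_le_mul_of_nonneg_right (pow_le_pow_left₀ (norm_nonneg _) (hx i) 2) (tr_nonneg _)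
  · intro i
    refine (h2 (d i) (Ψ (elt x) i) 0).2 _ (norm_nonneg _) (hΨ.pos i) fun Z => ?_
    set y : (j : Fin k) → Matrix (Fin (d j)) (Fin (d j)) ℂ := Pi.single i Z with hy
    set v : G → ℂ := fun g => (Ψ.symm y).coeff g with hv
    have hev : Ψ (elt v) = y := by
      rw [hv, elt_surj, AlgEquiv.apply_symm_apply]
    have hdi : (0 : ℝ) < d i := by exact_mod_cast hΨ.pos i
    refine le_of_mul_le_mul_left ?_ hdi
    have a1 := key v
    have a2 := key2 v
    rw [hev] at a1 a2
    rw [Finset.sum_eq_single i] at a1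
    · rw [Finset.sum_eq_single i] at a2
      · rw [hy, Pi.single_eq_same] at a1 a2
        rw [← a1, mul_left_comm, ← a2, mul_left_comm]
        exact mul_le_mul_of_nonneg_left (conv_sq_le x v) hG.le
      · intro j _ hj
        rw [hy, Pi.single_eq_of_ne hj]
        simp
      · intro hi
        exact absurd (mem_univ i) hi
    · intro j _ hj
      rw [hy, Pi.single_eq_of_ne hj]
      simp
    · intro hi
      exact absurd (mem_univ i) hi

end Pool.Agent.Q121.SPN
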